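import Pool.Agent.GT34.Poly

set_option autoImplicit false

/-!
# HN34/Lym: a criterion for the cone `Up`, and the local LYM form of it
-/

open Polynomial

namespace Pool.HN34

open Pool.GT34

lemma geo_mem_Up (s : ℕ) : geo s ∈ Up (s : ℤ) :=
  AddSubmonoid.subset_closure ⟨0, s, by simp, by simp⟩

lemma X_pow_mem_Up (i : ℕ) {s : ℤ} (h : s ≤ 2 * (i : ℤ)) : (X ^ i : ℕ[X]) ∈ Up s :=
  AddSubmonoid.subset_closure ⟨i, 0, by simpa using h, by simp [geo_zero]⟩

lemma coeff_geo (s k : ℕ) : (geo s).coeff k = if k ≤ s then 1 else 0 := by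
  unfold geo
  rw [finsetSum_coeff]
  simp only [coeff_X_pow]
  rw [Finset.sum_ite_eq]
  simp

lemma zero_le_all {h : ℕ → ℕ} {s : ℕ} (ha : ∀ k, 2 * k + 1 ≤ s → h k ≤ h (k + 1))
    (hb : ∀ i, 2 * i ≤ s → h i ≤ h (s - i)) : ∀ j, j ≤ s → h 0 ≤ h j := by
  have h1 : ∀ j, 2 * j ≤ s + 1 → h 0 ≤ h j := by
    intro j
    induction j with
    | zero => intro _; exact le_rfl
    | succ j ih =>
      intro hj
      exact (ih (by omega)).trans (ha j (by omega))
  intro j hj
  by_cases h2 : 2 * j ≤ s + 1
  · exact h1 j h2
  · have h3 := hb (s - j) (by omega)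
    rw [show s - (s - j) = j by omega] at h3
    exact (h1 (s - j) (by omega)).trans h3

/-- A criterion for membership in `Up s`. -/
theorem mem_Up_of_coeff : ∀ (s : ℕ) (h : ℕ[X]),
    (∀ k, 2 * k + 1 ≤ s → h.coeff k ≤ h.coeff (k + 1)) →
    (∀ i, 2 * i ≤ s → h.coeff i ≤ h.coeff (s - i)) → h ∈ Up (s : ℤ) := by
  intro s
  induction s using Nat.strong_induction_on with
  | _ s ih =>
    intro h ha hb
    by_cases hs : s < 2
    · -- `s = 0` or `s = 1`
      rcases Nat.eq_zero_or_pos s with rfl | hpos
      · rw [h.as_sum_range]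
        refine sum_mem fun i _ => ?_
        rw [← C_mul_X_pow_eq_monomial]
        have h1 : (C (h.coeff i) * X ^ i : ℕ[X]) = (h.coeff i) • (X ^ i : ℕ[X]) := by
          rw [nsmul_eq_mul, ← C_eq_natCast]
          simp
        rw [h1]
        exact AddSubmonoid.nsmul_mem _ (X_pow_mem_Up i (by push_cast; omega)) _
      · have hs1 : s = 1 := by omega
        subst hs1
        have hle := ha 0 (by omega)
        -- h = h0 * (1 + X) + (h1 - h0) X + rest
        have key : h = (h.coeff 0) • geo 1 + ((h.coeff 1 - h.coeff 0) • (X ^ 1 : ℕ[X]) +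
            ∑ i ∈ Finset.range (h.natDegree + 1), (if 2 ≤ i then h.coeff i else 0) • (X ^ i : ℕ[X])) := by
          ext k
          rw [coeff_add, coeff_add, coeff_smul, coeff_smul, coeff_geo, coeff_X_pow, finsetSum_coeff]
          have h2 : ∑ i ∈ Finset.range (h.natDegree + 1),
              ((if 2 ≤ i then h.coeff i else 0) • (X ^ i : ℕ[X])).coeff k =
              if 2 ≤ k then h.coeff k else 0 := by
            simp only [coeff_smul, coeff_X_pow, smul_eq_mul, mul_ite, mul_one, mul_zero]
            rw [Finset.sum_ite_eq]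
            by_cases hk : k ∈ Finset.range (h.natDegree + 1)
            · rw [if_pos hk]
            · rw [if_neg hk]
              have : h.coeff k = 0 := coeff_eq_zero_of_natDegree_lt (by
                rw [Finset.mem_range] at hk; omega)
              simp [this]
          rw [h2]
          simp only [smul_eq_mul]
          rcases Nat.lt_or_ge k 1 with hk | hk
          · have : k = 0 := by omega
            subst this
            simp
          · rcases Nat.lt_or_ge k 2 with hk2 | hk2
            · have : k = 1 := by omega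
              subst this
              have e1 : ¬ (2 ≤ 1) := by omega
              rw [if_pos le_rfl, if_pos rfl, if_neg e1, mul_one, mul_one, add_zero]
              simp only [zero_add] at hle
              omega
            · have e1 : ¬ (k ≤ 1) := by omega
              have e2 : ¬ (k = 1) := by omega
              rw [if_neg e1, if_neg e2, if_pos hk2, mul_zero, mul_zero, zero_add, zero_add]
        rw [key]
        refine add_mem (AddSubmonoid.nsmul_mem _ (geo_mem_Up 1) _) (add_mem
          (AddSubmonoid.nsmul_mem _ (X_pow_mem_Up 1 (by norm_num)) _) (sum_mem fun i _ => ?_))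
        by_cases hi : 2 ≤ i
        · exact AddSubmonoid.nsmul_mem _ (X_pow_mem_Up i (by push_cast; omega)) _
        · rw [if_neg hi, zero_smul]
          exact zero_mem _
    · push Not at hs
      have h0 := zero_le_all ha hb
      set g : ℕ[X] := ∑ k ∈ Finset.range (h.natDegree + 1),
        (h.coeff (k + 1) - if k + 1 ≤ s then h.coeff 0 else 0) • (X ^ k : ℕ[X]) with hg
      have hgc : ∀ k, g.coeff k = h.coeff (k + 1) - if k + 1 ≤ s then h.coeff 0 else 0 := by
        intro k
        rw [hg, finsetSum_coeff]
        simp only [coeff_smul, coeff_X_pow, smul_eq_mul, mul_ite, mul_one, mul_zero]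
        rw [Finset.sum_ite_eq]
        by_cases hk : k ∈ Finset.range (h.natDegree + 1)
        · rw [if_pos hk]
        · rw [if_neg hk]
          have : h.coeff (k + 1) = 0 := coeff_eq_zero_of_natDegree_lt (by
            rw [Finset.mem_range] at hk; omega)
          rw [this, Nat.zero_sub]
      have hdec : h = (h.coeff 0) • geo s + X * g := by
        ext k
        rw [coeff_add, coeff_smul, coeff_geo, smul_eq_mul]
        rcases k with _ | k
        · simp
        · rw [coeff_X_mul, hgc]
          by_cases hk : k + 1 ≤ s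
          · rw [if_pos hk, if_pos hk]
            have := h0 (k + 1) hk
            omega
          · rw [if_neg hk, if_neg hk]
            omega
      rw [hdec]
      refine add_mem (AddSubmonoid.nsmul_mem _ (geo_mem_Up s) _) ?_
      have h1 : g ∈ Up ((s - 2 : ℕ) : ℤ) := by
        refine ih (s - 2) (by omega) g (fun k hk => ?_) (fun i hi => ?_)
        · rw [hgc, hgc, if_pos (by omega), if_pos (by omega)]
          exact Nat.sub_le_sub_right (ha (k + 1) (by omega)) _
        · rw [hgc, hgc, if_pos (by omega), if_pos (by omega)]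
          have h2 := hb (i + 1) (by omega)
          rw [show s - 2 - i + 1 = s - (i + 1) by omega]
          exact Nat.sub_le_sub_right h2 _
      have h2 := X_pow_mul_mem_Up h1 1
      rw [pow_one] at h2
      refine Up_mono ?_ h2
      push_cast [hs]
      omega

/-- The ratio `N r / choose k r` is nondecreasing. -/
lemma lym_ratio {N : ℕ → ℕ} {k : ℕ} (h : ∀ r, r < k → (k - r) * N r ≤ (r + 1) * N (r + 1)) :
    ∀ d r, r + d ≤ k → N r * k.choose (r + d) ≤ N (r + d) * k.choose r := by
  intro d
  induction d with
  | zero => intro r _; exact le_rfl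
  | succ d ih =>
    intro r hr
    have h1 := ih r (by omega)
    have h2 := h (r + d) (by omega)
    -- choose k (r+d+1) * (r+d+1) = choose k (r+d) * (k-(r+d))
    have h3 : k.choose (r + d + 1) * (r + d + 1) = k.choose (r + d) * (k - (r + d)) :=
      Nat.choose_succ_right_eq k (r + d)
    have hpos : 0 < r + d + 1 := by omega
    refine Nat.le_of_mul_le_mul_right (c := r + d + 1) ?_ hpos
    calc N r * k.choose (r + (d + 1)) * (r + d + 1)
        = N r * (k.choose (r + d + 1) * (r + d + 1)) := by
          rw [show r + (d + 1) = r + d + 1 by ring]; ring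
      _ = (N r * k.choose (r + d)) * (k - (r + d)) := by rw [h3]; ring
      _ ≤ (N (r + d) * k.choose r) * (k - (r + d)) := Nat.mul_le_mul_right _ h1
      _ = ((k - (r + d)) * N (r + d)) * k.choose r := by ring
      _ ≤ ((r + d + 1) * N (r + d + 1)) * k.choose r := Nat.mul_le_mul_right _ h2
      _ = N (r + (d + 1)) * k.choose r * (r + d + 1) := by
          rw [show r + (d + 1) = r + d + 1 by ring]; ring

/-- Local LYM inequalities give membership in `Up k`. -/
theorem lym_Up (k : ℕ) (N : ℕ → ℕ) (h : ∀ r, r < k → (k - r) * N r ≤ (r + 1) * N (r + 1)) :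
    (∑ r ∈ Finset.range (k + 1), (N r) • (X ^ r : ℕ[X])) ∈ Up (k : ℤ) := by
  have hc : ∀ r, r ≤ k → (∑ r ∈ Finset.range (k + 1), (N r) • (X ^ r : ℕ[X])).coeff r = N r := by
    intro r hr
    rw [finsetSum_coeff]
    simp only [coeff_smul, coeff_X_pow, smul_eq_mul, mul_ite, mul_one, mul_zero]
    rw [Finset.sum_ite_eq, if_pos (by rw [Finset.mem_range]; omega)]
  refine mem_Up_of_coeff k _ (fun r hr => ?_) (fun r hr => ?_)
  · rw [hc _ (by omega), hc _ (by omega)]
    have h1 := h r (by omega)
    have h2 : (r + 1) * N r ≤ (k - r) * N r := Nat.mul_le_mul_right _ (by omega)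
    exact Nat.le_of_mul_le_mul_left (h2.trans h1) (by omega)
  · rw [hc _ (by omega), hc _ (by omega)]
    have h1 := lym_ratio h (k - 2 * r) r (by omega)
    rw [show r + (k - 2 * r) = k - r by omega, Nat.choose_symm (by omega)] at h1
    exact Nat.le_of_mul_le_mul_right h1 (Nat.choose_pos (by omega))

end Pool.HN34
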