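import Pool.Agent.HN34.Cor3
import Pool.Agent.NC86.Step

set_option autoImplicit false

/-!
# HN34/Both: gauges of both parities

`StG κ T e`: after adding a least element with value `-1` and a greatest element with value
`T + 1`, `κ` increases by `1`, `2`, or by `3` from a value congruent to `e`, along every cover.

`FlG μ T e`: after adding a least element with value `0` and a greatest element with value `T`,
`μ` changes by `0`, `1`, or by `-1` from a value congruent to `e`, along every cover.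
-/

open Polynomial OrderDual

namespace Pool.HN34

open Pool.GT34

/-- Steep gauge of parity `e`. -/
structure StG {V : Type} [PartialOrder V] (κ : V → ℤ) (T : ℕ) (e : ℤ) : Prop where
  cov : ∀ x y, x ⋖ y → κ y = κ x + 1 ∨ κ y = κ x + 2 ∨ (κ y = κ x + 3 ∧ κ x % 2 = e)
  bot : ∀ x, IsMin x → κ x = 0 ∨ κ x = 1 ∨ (κ x = 2 ∧ e = 1)
  top : ∀ x, IsMax x → κ x = T ∨ κ x = T - 1 ∨ (κ x = T - 2 ∧ κ x % 2 = e)

/-- Flat gauge of parity `e`. -/
structure FlG {V : Type} [PartialOrder V] (μ : V → ℤ) (T : ℕ) (e : ℤ) : Prop where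
  cov : ∀ x y, x ⋖ y → μ y = μ x ∨ μ y = μ x + 1 ∨ (μ y = μ x - 1 ∧ μ x % 2 = e)
  bot : ∀ x, IsMin x → μ x = 0 ∨ μ x = 1 ∨ (μ x = -1 ∧ e = 0)
  top : ∀ x, IsMax x → μ x = T ∨ μ x = T - 1 ∨ (μ x = T + 1 ∧ μ x % 2 = e)

section Dual

variable {V : Type} [PartialOrder V]

lemma covBy_ofDual {x y : Vᵒᵈ} (h : x ⋖ y) : ofDual y ⋖ ofDual x := ofDual_covBy_ofDual_iff.2 h

lemma isMax_ofDual {x : Vᵒᵈ} (h : IsMin x) : IsMax (ofDual x) := isMax_ofDual_iff.2 h

lemma isMin_ofDual {x : Vᵒᵈ} (h : IsMax x) : IsMin (ofDual x) := isMin_ofDual_iff.2 h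

end Dual

section Bounds

variable {V : Type} [Fintype V] [PartialOrder V]

lemma StG.nonneg {κ : V → ℤ} {T : ℕ} {e : ℤ} (h : StG κ T e) (x : V) : 0 ≤ κ x := by
  obtain ⟨y, hyx, hy⟩ := exists_isMin_le x
  have h1 : 0 ≤ κ y := by rcases h.bot y hy with h1 | h1 | ⟨h1, -⟩ <;> omega
  rcases hyx.eq_or_lt with rfl | hlt
  · exact h1
  · have h2 : κ y ≤ κ x := of_covBy (fun x y => κ x ≤ κ y) (fun _ _ _ h1 h2 => h1.trans h2)
      (fun x y hxy => by rcases h.cov x y hxy with h1 | h1 | ⟨h1, -⟩ <;> omega) y x hlt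
    omega

lemma StG.le {κ : V → ℤ} {T : ℕ} {e : ℤ} (h : StG κ T e) (x : V) : κ x ≤ T := by
  obtain ⟨y, hxy, hy⟩ := exists_le_isMax x
  have h1 : κ y ≤ T := by rcases h.top y hy with h1 | h1 | ⟨h1, -⟩ <;> omega
  rcases hxy.eq_or_lt with rfl | hlt
  · exact h1
  · have h2 : κ x ≤ κ y := of_covBy (fun x y => κ x ≤ κ y) (fun _ _ _ h1 h2 => h1.trans h2)
      (fun x y hxy => by rcases h.cov x y hxy with h1 | h1 | ⟨h1, -⟩ <;> omega) x y hlt
    omega

lemma FlG.nonneg {μ : V → ℤ} {T : ℕ} {e : ℤ} (h : FlG μ T e) (he : e ≠ 0) (x : V) :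
    0 ≤ μ x := by
  obtain ⟨y, hyx, hy⟩ := exists_isMin_le x
  have h1 : 0 ≤ μ y := by
    rcases h.bot y hy with h1 | h1 | ⟨-, h1⟩
    · omega
    · omega
    · exact absurd h1 he
  rcases hyx.eq_or_lt with rfl | hlt
  · exact h1
  · exact of_covBy (fun x y => 0 ≤ μ x → 0 ≤ μ y) (fun _ _ _ h1 h2 h3 => h2 (h1 h3))
      (fun x y hxy h0 => by
        rcases h.cov x y hxy with h1 | h1 | ⟨h1, h2⟩
        · omega
        · omega
        · by_contra h3
          have : μ x = 0 := by omega
          rw [this] at h2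
          exact he (by omega)) y x hlt h1

lemma FlG.le {μ : V → ℤ} {T : ℕ} (h : FlG μ T 0) (hT : Even T) (x : V) : μ x ≤ T := by
  obtain ⟨y, hxy, hy⟩ := exists_le_isMax x
  obtain ⟨r, hr⟩ := hT
  have h1 : μ y ≤ T := by
    rcases h.top y hy with h1 | h1 | ⟨h1, h2⟩ <;> omega
  rcases hxy.eq_or_lt with rfl | hlt
  · exact h1
  · exact of_covBy (fun x y => μ y ≤ T → μ x ≤ T) (fun _ _ _ h1 h2 h3 => h1 (h2 h3))
      (fun x y hxy h0 => by
        rcases h.cov x y hxy with h1 | h1 | ⟨h1, h2⟩
        · omega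
        · omega
        · by_contra h3
          omega) x y hlt h1

end Bounds

/-- Extension of an integer-valued gauge to `WithTop V`. -/
def ktz {V : Type} (κ : V → ℤ) (c : ℤ) : WithTop V → ℤ
  | ⊤ => c
  | (x : V) => κ x

section Steep

variable {V : Type} [Fintype V] [PartialOrder V] [Nonempty V] (ω : V → ℤ)

/-- Parity even: the old gauge. -/
lemma StG.toI3 {κ : V → ℤ} {T : ℕ} {e : ℤ} (h : StG κ T e) (he : e ≠ 1) :
    GaugeI3 (fun x => (κ x).toNat) T where
  cov x y hxy := by
    have h0 := h.nonneg x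
    rcases h.cov x y hxy with h1 | h1 | ⟨h1, h2⟩
    · omega
    · omega
    · refine ⟨by omega, Or.inr ⟨by omega, ?_⟩⟩
      rw [Nat.even_iff]
      omega
  bot x hx := by
    rcases h.bot x hx with h1 | h1 | ⟨-, h2⟩
    · omega
    · omega
    · exact absurd h2 he
  top x hx := by
    have h0 := h.nonneg x
    rcases h.top x hx with h1 | h1 | ⟨h1, h2⟩
    · left; omega
    · right; left; omega
    · right; right
      refine ⟨by omega, ?_⟩
      rw [Nat.even_iff]
      omega

/-- Parity odd and `T` even: the dual. -/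
lemma StG.toDual {κ : V → ℤ} {T : ℕ} (h : StG κ T 1) (hT : Even T) :
    GaugeI3 (fun x : Vᵒᵈ => (T - κ (ofDual x)).toNat) T where
  cov x y hxy := by
    obtain ⟨r, hr⟩ := hT
    have h0 := h.le (ofDual x)
    have h0' := h.le (ofDual y)
    rcases h.cov _ _ (covBy_ofDual hxy) with h1 | h1 | ⟨h1, h2⟩
    · omega
    · omega
    · refine ⟨by omega, Or.inr ⟨by omega, ?_⟩⟩
      rw [Nat.even_iff]
      omega
  bot x hx := by
    obtain ⟨r, hr⟩ := hT
    rcases h.top _ (isMax_ofDual hx) with h1 | h1 | ⟨h1, h2⟩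
    · omega
    · omega
    · omega
  top x hx := by
    have h0 := h.le (ofDual x)
    rcases h.bot _ (isMin_ofDual hx) with h1 | h1 | ⟨h1, -⟩
    · left; omega
    · right; left; omega
    · right; right
      exact ⟨by omega, hT⟩

omit [Fintype V] in
lemma StG.withTop {κ : V → ℤ} {T : ℕ} {e : ℤ} (h : StG κ T e) :
    StG (ktz κ (T + 1)) (T + 1) e where
  cov := by
    intro x y hxy
    induction x using WithTop.recTopCoe with
    | top => exact absurd hxy.lt (by simp)
    | coe x =>
      induction y using WithTop.recTopCoe with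
      | top =>
        have h1 := h.top x (WithTop.coe_covBy_top.1 hxy)
        change (T : ℤ) + 1 = κ x + 1 ∨ (T : ℤ) + 1 = κ x + 2 ∨ ((T : ℤ) + 1 = κ x + 3 ∧ κ x % 2 = e)
        rcases h1 with h1 | h1 | ⟨h1, h2⟩
        · left; omega
        · right; left; omega
        · right; right; exact ⟨by omega, h2⟩
      | coe y => exact h.cov x y (WithTop.coe_covBy_coe.1 hxy)
  bot := by
    intro x hx
    induction x using WithTop.recTopCoe with
    | top =>
      obtain ⟨y⟩ := (inferInstance : Nonempty V)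
      exact absurd (WithTop.coe_lt_top y) hx.not_lt
    | coe x => exact h.bot x (isMin_of_coe hx)
  top := by
    intro x hx
    induction x using WithTop.recTopCoe with
    | top => left; change (T : ℤ) + 1 = _; push_cast; rfl
    | coe x => exact absurd hx (not_isMax_coe x)

omit [Nonempty V] in
lemma up_dual_even [Nonempty V] {κ : V → ℤ} {T : ℕ} (h : StG κ T 1) (hT : Even T)
    (hi : Function.Injective ω) (hω : ∀ x y, x < y → ω x < ω y) :
    W (Dl ω) (Finset.univ : Finset V) ∈ Up ((Fintype.card V : ℤ) - 1 - T) := by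
  have : Nonempty Vᵒᵈ := ‹Nonempty V›
  rw [← W_dual _ hi hω]
  have h1 := main_I3 hopCone (dl ω) (dl_injective hi) (dl_natural hω) (h.toDual hT)
  rw [Fintype.card_orderDual] at h1
  exact h1

theorem up_both {κ : V → ℤ} {T : ℕ} {e : ℤ} (h : StG κ T e) (hi : Function.Injective ω)
    (hω : ∀ x y, x < y → ω x < ω y) :
    W (Dl ω) (Finset.univ : Finset V) ∈ Up ((Fintype.card V : ℤ) - 1 - T) := by
  classical
  by_cases he : e = 1
  · subst he
    rcases Nat.even_or_odd T with hT | hT
    · exact up_dual_even ω h hT hi hω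
    · obtain ⟨c, hc⟩ := exists_above ω
      have h1 := up_dual_even (V := WithTop V) (wt ω c) h.withTop hT.add_one (wt_injective hi hc)
        (wt_natural hω hc)
      rw [W_top ω hc, card_withTop] at h1
      refine Up_mono ?_ h1
      push_cast; omega
  · exact main_I3 hopCone ω hi hω (h.toI3 he)

end Steep

section Flat

variable {V : Type} [Fintype V] [PartialOrder V] [Nonempty V] (ω : V → ℤ)

/-- Parity odd: the old gauge. -/
lemma FlG.toD3 {μ : V → ℤ} {T : ℕ} {e : ℤ} (h : FlG μ T e) (he : e ≠ 0) :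
    GaugeD3 (fun x => (μ x).toNat) T where
  cov x y hxy := by
    have h0 := h.nonneg he x
    have h0' := h.nonneg he y
    rcases h.cov x y hxy with h1 | h1 | ⟨h1, h2⟩
    · omega
    · omega
    · refine ⟨by omega, Or.inr ⟨by omega, ?_⟩⟩
      rw [Nat.odd_iff]
      omega
  bot x hx := by
    rcases h.bot x hx with h1 | h1 | ⟨-, h2⟩
    · omega
    · omega
    · exact absurd h2 he
  top x hx := by
    have h0 := h.nonneg he x
    rcases h.top x hx with h1 | h1 | ⟨h1, h2⟩
    · left; omega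
    · right; left; omega
    · right; right
      refine ⟨by omega, ?_⟩
      rw [Nat.even_iff]
      omega

/-- Parity even and `T` even: the dual. -/
lemma FlG.toDual {μ : V → ℤ} {T : ℕ} (h : FlG μ T 0) (hT : Even T) :
    GaugeD3 (fun x : Vᵒᵈ => (T - μ (ofDual x)).toNat) T where
  cov x y hxy := by
    have h0 := h.le hT (ofDual x)
    have h0' := h.le hT (ofDual y)
    obtain ⟨r, hr⟩ := hT
    rcases h.cov _ _ (covBy_ofDual hxy) with h1 | h1 | ⟨h1, h2⟩
    · omega
    · omega
    · refine ⟨by omega, Or.inr ⟨by omega, ?_⟩⟩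
      rw [Nat.odd_iff]
      omega
  bot x hx := by
    obtain ⟨r, hr⟩ := hT
    rcases h.top _ (isMax_ofDual hx) with h1 | h1 | ⟨h1, h2⟩
    · omega
    · omega
    · omega
  top x hx := by
    rcases h.bot _ (isMin_ofDual hx) with h1 | h1 | ⟨h1, -⟩
    · left; omega
    · by_cases hT0 : T = 0
      · -- then `μ = 1` exceeds the bound
        have h0 := h.le hT (ofDual x)
        omega
      · right; left; omega
    · right; right
      exact ⟨by omega, hT⟩

omit [Fintype V] in
lemma FlG.withTop {μ : V → ℤ} {T : ℕ} {e : ℤ} (h : FlG μ T e) :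
    FlG (ktz μ T) (T + 1) e where
  cov := by
    intro x y hxy
    induction x using WithTop.recTopCoe with
    | top => exact absurd hxy.lt (by simp)
    | coe x =>
      induction y using WithTop.recTopCoe with
      | top =>
        have h1 := h.top x (WithTop.coe_covBy_top.1 hxy)
        change (T : ℤ) = μ x ∨ (T : ℤ) = μ x + 1 ∨ ((T : ℤ) = μ x - 1 ∧ μ x % 2 = e)
        rcases h1 with h1 | h1 | ⟨h1, h2⟩
        · left; omega
        · right; left; omega
        · right; right; exact ⟨by omega, h2⟩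
      | coe y => exact h.cov x y (WithTop.coe_covBy_coe.1 hxy)
  bot := by
    intro x hx
    induction x using WithTop.recTopCoe with
    | top =>
      obtain ⟨y⟩ := (inferInstance : Nonempty V)
      exact absurd (WithTop.coe_lt_top y) hx.not_lt
    | coe x => exact h.bot x (isMin_of_coe hx)
  top := by
    intro x hx
    induction x using WithTop.recTopCoe with
    | top => right; left; change (T : ℤ) = _; push_cast; ring
    | coe x => exact absurd hx (not_isMax_coe x)

omit [Nonempty V] in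
lemma down_dual_even [Nonempty V] {μ : V → ℤ} {T : ℕ} (h : FlG μ T 0) (hT : Even T)
    (hi : Function.Injective ω) (hω : ∀ x y, x < y → ω x < ω y) :
    W (Dl ω) (Finset.univ : Finset V) ∈ Lo ((Fintype.card V : ℤ) + 1 - T) := by
  have : Nonempty Vᵒᵈ := ‹Nonempty V›
  rw [← W_dual _ hi hω]
  have h1 := main_D3 hopCone (dl ω) (dl_injective hi) (dl_natural hω) (h.toDual hT)
  rw [Fintype.card_orderDual] at h1
  exact h1

theorem down_both {μ : V → ℤ} {T : ℕ} {e : ℤ} (h : FlG μ T e) (hi : Function.Injective ω)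
    (hω : ∀ x y, x < y → ω x < ω y) :
    W (Dl ω) (Finset.univ : Finset V) ∈ Lo ((Fintype.card V : ℤ) + 1 - T) := by
  classical
  by_cases he : e = 0
  · subst he
    rcases Nat.even_or_odd T with hT | hT
    · exact down_dual_even ω h hT hi hω
    · obtain ⟨c, hc⟩ := exists_above ω
      have h1 := down_dual_even (V := WithTop V) (wt ω c) h.withTop hT.add_one
        (wt_injective hi hc) (wt_natural hω hc)
      rw [W_top ω hc, card_withTop] at h1
      refine Lo_mono ?_ h1
      push_cast; omega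
  · exact main_D3 hopCone ω hi hω (h.toD3 he)

/-- The gauge theorem with gauges of both parities. -/
theorem uni_both (hi : Function.Injective ω) (hω : ∀ x y, x < y → ω x < ω y) (T T' : ℕ)
    (hκ : ∃ (κ : V → ℤ) (e : ℤ), StG κ T e) (hμ : ∃ (μ : V → ℤ) (e : ℤ), FlG μ T' e)
    (hT : T ≤ T' + 1 ∨ (T = T' + 2 ∧ Even (Fintype.card V + T))) :
    Pool.NC86.Uni (W (Dl ω) (Finset.univ : Finset V)) := by
  obtain ⟨κ, e, hκ⟩ := hκ
  obtain ⟨μ, e', hμ⟩ := hμ
  have h1 := up_both ω hκ hi hω
  have h2 := down_both ω hμ hi hω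
  exact unimodal_of_cones h1 h2 (by
    rcases hT with hT | ⟨hT, r, hr⟩
    · left; omega
    · right
      refine ⟨by omega, ⟨(r : ℤ) - 1 - T, ?_⟩⟩
      omega)

/-- No five-element chain. -/
theorem uni_noFive (hi : Function.Injective ω) (hω : ∀ x y, x < y → ω x < ω y)
    (h5 : ∀ a b c d e : V, a < b → b < c → c < d → ¬ d < e) :
    Pool.NC86.Uni (W (Dl ω) (Finset.univ : Finset V)) := by
  have h1 := main_I3' hopCone _ V rfl ω hi hω _ 3 (gaugeI3_noFive h5)
  have h2 := main_D3 hopCone ω hi hω (GaugeD3.of_old gaugeD_const)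
  exact unimodal_of_cones h1 h2 (Or.inl (by push_cast; omega))

end Flat

end Pool.HN34
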