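import Pool.Agent.HN34.Dual3
import Pool.Agent.HN27.Double

set_option autoImplicit false

/-!
# HN34/Cor3: the gauge theorem without hypotheses, and two explicit families

* posets without a chain of five elements;
* posets all of whose maximal chains have `a` or `a + 1` elements.
-/

namespace Pool.HN34

open Pool.GT34

/-- `HopCone` holds. -/
theorem hopCone : HopCone := fun _ _ _ _ w hi t ht => Pool.HN27.hop_cone w hi t ht

section Final

variable (α : Type) [Fintype α] [PartialOrder α] (f : α ≃ Fin (Fintype.card α))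
  (hf : ∀ x y : α, x < y → f x < f y)

include hf

/-- The gauge theorem. -/
theorem gauge_unimodal (T T' : ℕ)
    (hκ : (∃ κ : α → ℕ, GaugeI3' κ T) ∨ ∃ κ : αᵒᵈ → ℕ, GaugeI3' κ T)
    (hμ : (∃ μ : α → ℕ, GaugeD3 μ T') ∨ ∃ μ : αᵒᵈ → ℕ, GaugeD3 μ T')
    (hT : T ≤ T' + 1 ∨ (T = T' + 2 ∧ Even (Fintype.card α + T))) :
    ∃ m : ℕ, ∀ k : ℕ, (k < m → wnum α f k ≤ wnum α f (k + 1)) ∧
      (m ≤ k → wnum α f (k + 1) ≤ wnum α f k) :=
  unimodal_of_gauges hopCone α f hf T T' hκ hμ hT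

/-- The increasing half. -/
theorem gauge_up (T : ℕ)
    (hκ : (∃ κ : α → ℕ, GaugeI3' κ T) ∨ ∃ κ : αᵒᵈ → ℕ, GaugeI3' κ T) (k : ℕ)
    (hk : 2 * k + 1 + T < Fintype.card α) : wnum α f k ≤ wnum α f (k + 1) :=
  up_half hopCone α f hf T hκ k hk

/-- The decreasing half. -/
theorem gauge_down (T : ℕ)
    (hμ : (∃ μ : α → ℕ, GaugeD3 μ T) ∨ ∃ μ : αᵒᵈ → ℕ, GaugeD3 μ T) (k : ℕ)
    (hk : Fintype.card α < 2 * k + 1 + T) : wnum α f (k + 1) ≤ wnum α f k :=
  down_half hopCone α f hf T hμ k hk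

/-- Every finite poset without a five-element chain has unimodal descent numbers. -/
theorem noFiveChain_unimodal (h5 : ∀ a b c d e : α, a < b → b < c → c < d → ¬ d < e) :
    ∃ m : ℕ, ∀ k : ℕ, (k < m → wnum α f k ≤ wnum α f (k + 1)) ∧
      (m ≤ k → wnum α f (k + 1) ≤ wnum α f k) :=
  gauge_unimodal α f hf 3 2 (Or.inl ⟨_, gaugeI3_noFive h5⟩)
    (Or.inl ⟨_, GaugeD3.of_old gaugeD_const⟩) (Or.inl (by omega))

/-- Every finite poset all of whose maximal chains have `a` or `a + 1` elements has unimodal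
descent numbers. -/
theorem twoLengths_unimodal (a : ℕ)
    (hB : ∀ s : Finset α, IsMaxChain (· ≤ ·) (s : Set α) → s.card = a ∨ s.card = a + 1) :
    ∃ m : ℕ, ∀ k : ℕ, (k < m → wnum α f k ≤ wnum α f (k + 1)) ∧
      (m ≤ k → wnum α f (k + 1) ≤ wnum α f k) :=
  gauge_unimodal α f hf a (a + 1) (Or.inl ⟨_, GaugeI3'.of_old (gaugeI_two hB)⟩)
    (Or.inl ⟨_, GaugeD3.of_old (gaugeD_two hB)⟩) (Or.inl (by omega))

end Final

end Pool.HN34
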