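import Pool.Agent.HN34.Flat3

set_option autoImplicit false

/-!
# HN34/Dual3: gauges on the poset or on its dual

The descent polynomial of a natural labelling is the same for a poset and its dual, so either of
the two gauges may live on the dual poset.
-/

open Polynomial OrderDual

namespace Pool.HN34

open Pool.GT34

/-- The labelling of the dual. -/
def dl {V : Type} (ω : V → ℤ) : Vᵒᵈ → ℤ := fun x => - ω (ofDual x)

lemma dl_injective {V : Type} {ω : V → ℤ} (hi : Function.Injective ω) :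
    Function.Injective (dl ω) := fun x y h => by
  have h1 : ω (ofDual x) = ω (ofDual y) := neg_injective h
  exact ofDual.injective (hi h1)

lemma dl_natural {V : Type} [PartialOrder V] {ω : V → ℤ} (hω : ∀ x y, x < y → ω x < ω y) :
    ∀ x y, x < y → dl ω x < dl ω y := fun x y h => by
  have h1 := hω (ofDual y) (ofDual x) (ofDual_lt_ofDual.2 h)
  change - ω (ofDual x) < - ω (ofDual y)
  omega

lemma Om_dual {V : Type} [PartialOrder V] (ω : V → ℤ) (hω : ∀ x y, x < y → ω x < ω y) (N : ℤ) :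
    Om (dl ω) N = Om ω N := by
  rw [Om_natural ω hω, Om_natural (dl ω) (dl_natural hω)]
  refine Nat.card_congr
    { toFun := fun g => ⟨fun x => N - g.1 (toDual x), ?_, ?_⟩
      invFun := fun f => ⟨fun x => N - f.1 (ofDual x), ?_, ?_⟩
      left_inv := ?_
      right_inv := ?_ }
  · intro x
    have := g.2.1 (toDual x)
    change 0 ≤ N - g.1 (toDual x) ∧ N - g.1 (toDual x) ≤ N
    omega
  · intro x y hxy
    have := g.2.2 (toDual y) (toDual x) (toDual_lt_toDual.2 hxy)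
    change N - g.1 (toDual x) ≤ N - g.1 (toDual y)
    omega
  · intro x
    have := f.2.1 (ofDual x)
    change 0 ≤ N - f.1 (ofDual x) ∧ N - f.1 (ofDual x) ≤ N
    omega
  · intro x y hxy
    have := f.2.2 (ofDual y) (ofDual x) (ofDual_lt_ofDual.2 hxy)
    change N - f.1 (ofDual x) ≤ N - f.1 (ofDual y)
    omega
  · rintro ⟨g, hg⟩
    simp
  · rintro ⟨f, hf⟩
    simp

theorem W_dual {V : Type} [Fintype V] [PartialOrder V] [Nonempty V] (ω : V → ℤ)
    (hi : Function.Injective ω) (hω : ∀ x y, x < y → ω x < ω y) :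
    W (Dl (dl ω)) (Finset.univ : Finset Vᵒᵈ) = W (Dl ω) (Finset.univ : Finset V) := by
  have : Nonempty Vᵒᵈ := ‹Nonempty V›
  apply ev_inj (p := Fintype.card V)
  intro N
  rw [← Om_eq_ev ω hi N, ← Om_dual ω hω N, Om_eq_ev (dl ω) (dl_injective hi) N,
    Fintype.card_orderDual]

section Halves

variable (hcone : HopCone) (α : Type) [Fintype α] [PartialOrder α]
  (f : α ≃ Fin (Fintype.card α)) (hf : ∀ x y : α, x < y → f x < f y)

include hcone hf

theorem up_cone [Nonempty α] (T : ℕ)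
    (hκ : (∃ κ : α → ℕ, GaugeI3' κ T) ∨ ∃ κ : αᵒᵈ → ℕ, GaugeI3' κ T) :
    W (Dl (fun x => ((f x : ℕ) : ℤ))) (Finset.univ : Finset α) ∈
      Up ((Fintype.card α : ℤ) - 1 - T) := by
  have hinj : Function.Injective (fun x => ((f x : ℕ) : ℤ)) :=
    fun x y h => f.injective (Fin.ext (Nat.cast_injective h))
  have hnat : ∀ x y : α, x < y → ((f x : ℕ) : ℤ) < ((f y : ℕ) : ℤ) :=
    fun x y h => Nat.cast_lt.2 (Fin.lt_def.1 (hf x y h))
  rcases hκ with ⟨κ, hκ⟩ | ⟨κ, hκ⟩
  · exact main_I3' hcone _ α rfl _ hinj hnat κ T hκ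
  · have : Nonempty αᵒᵈ := ‹Nonempty α›
    rw [← W_dual _ hinj hnat]
    exact main_I3' hcone _ αᵒᵈ (Fintype.card_orderDual α) _ (dl_injective hinj)
      (dl_natural hnat) κ T hκ

theorem down_cone [Nonempty α] (T : ℕ)
    (hμ : (∃ μ : α → ℕ, GaugeD3 μ T) ∨ ∃ μ : αᵒᵈ → ℕ, GaugeD3 μ T) :
    W (Dl (fun x => ((f x : ℕ) : ℤ))) (Finset.univ : Finset α) ∈
      Lo ((Fintype.card α : ℤ) + 1 - T) := by
  have hinj : Function.Injective (fun x => ((f x : ℕ) : ℤ)) :=
    fun x y h => f.injective (Fin.ext (Nat.cast_injective h))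
  have hnat : ∀ x y : α, x < y → ((f x : ℕ) : ℤ) < ((f y : ℕ) : ℤ) :=
    fun x y h => Nat.cast_lt.2 (Fin.lt_def.1 (hf x y h))
  rcases hμ with ⟨μ, hμ⟩ | ⟨μ, hμ⟩
  · exact main_D3 hcone _ hinj hnat hμ
  · have : Nonempty αᵒᵈ := ‹Nonempty α›
    rw [← W_dual _ hinj hnat]
    have h := main_D3 hcone _ (dl_injective hinj) (dl_natural hnat) hμ
    rw [Fintype.card_orderDual] at h
    exact h

/-- The increasing half. -/
theorem up_half (T : ℕ)
    (hκ : (∃ κ : α → ℕ, GaugeI3' κ T) ∨ ∃ κ : αᵒᵈ → ℕ, GaugeI3' κ T) (k : ℕ)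
    (hk : 2 * k + 1 + T < Fintype.card α) : wnum α f k ≤ wnum α f (k + 1) := by
  have : Nonempty α := Fintype.card_pos_iff.1 (by omega)
  have h1 := up_cone hcone α f hf T hκ
  have h2 := Up_step h1 (k := k) (by omega)
  rw [show wnum α f k = _ from link f k, show wnum α f (k + 1) = _ from link f (k + 1)]
  exact h2

/-- The decreasing half. -/
theorem down_half (T : ℕ)
    (hμ : (∃ μ : α → ℕ, GaugeD3 μ T) ∨ ∃ μ : αᵒᵈ → ℕ, GaugeD3 μ T) (k : ℕ)
    (hk : Fintype.card α < 2 * k + 1 + T) : wnum α f (k + 1) ≤ wnum α f k := by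
  rcases isEmpty_or_nonempty α with h | h
  · rw [wnum_succ_of_isEmpty α f h]
    exact Nat.zero_le _
  · have h1 := down_cone hcone α f hf T hμ
    have h2 := Lo_step h1 (k := k) (by omega)
    rw [show wnum α f k = _ from link f k, show wnum α f (k + 1) = _ from link f (k + 1)]
    exact h2

/-- Unimodality. -/
theorem unimodal_of_gauges (T T' : ℕ)
    (hκ : (∃ κ : α → ℕ, GaugeI3' κ T) ∨ ∃ κ : αᵒᵈ → ℕ, GaugeI3' κ T)
    (hμ : (∃ μ : α → ℕ, GaugeD3 μ T') ∨ ∃ μ : αᵒᵈ → ℕ, GaugeD3 μ T')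
    (hT : T ≤ T' + 1 ∨ (T = T' + 2 ∧ Even (Fintype.card α + T))) :
    ∃ m : ℕ, ∀ k : ℕ, (k < m → wnum α f k ≤ wnum α f (k + 1)) ∧
      (m ≤ k → wnum α f (k + 1) ≤ wnum α f k) := by
  rcases isEmpty_or_nonempty α with h | h
  · refine ⟨0, fun k => ⟨fun hk => by omega, fun _ => ?_⟩⟩
    rw [wnum_succ_of_isEmpty α f h]
    exact Nat.zero_le _
  · have h1 := up_cone hcone α f hf T hκ
    have h2 := down_cone hcone α f hf T' hμ
    have h3 := unimodal_of_cones h1 h2 (by
      rcases hT with hT | ⟨hT, r, hr⟩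
      · left; omega
      · right
        refine ⟨by omega, ⟨(r : ℤ) - 1 - T, ?_⟩⟩
        omega)
    obtain ⟨m, hm⟩ := h3
    refine ⟨m, fun k => ?_⟩
    have e : ∀ k, wnum α f k =
        (W (Dl (fun x => ((f x : ℕ) : ℤ))) (Finset.univ : Finset α)).coeff k :=
      fun k => link f k
    rw [e, e]
    exact hm k

end Halves

section Old

variable {V : Type} [PartialOrder V] {κ : V → ℕ} {T : ℕ}

/-- The old steep gauge is a new one. -/
lemma GaugeI3'.of_old (h : GaugeI' κ T) : GaugeI3' κ T where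
  cov x y hxy := ⟨(h.cov x y hxy).1, Or.inl (h.cov x y hxy).2⟩
  bot := h.bot
  top x h1 h2 := (h.top x h1 h2).imp_right Or.inl

/-- The old flat gauge is a new one. -/
lemma GaugeD3.of_old (h : GaugeD κ T) : GaugeD3 κ T where
  cov x y hxy := ⟨(h.cov x y hxy).2, Or.inl (h.cov x y hxy).1⟩
  bot := h.bot
  top x h1 := (h.top x h1).imp_right Or.inl

end Old

end Pool.HN34
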