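import Pool.Agent.HN34.Main3

set_option autoImplicit false

/-!
# HN34/Flat3: the second half of the gauge theorem for the weakened flat gauge

Conditional on `HopCone`, by reversal of the descent polynomial.
-/

open Polynomial

namespace Pool.HN34

open Pool.GT34

lemma gen_mem_Lo {s : ℤ} {i l : ℕ} (h : 2 * (i : ℤ) + l ≤ s) : (X ^ i * geo l : ℕ[X]) ∈ Lo s :=
  AddSubmonoid.subset_closure ⟨i, l, h, rfl⟩

/-- Reversal on polynomials of degree at most `d`. -/
lemma reflect_mem_Lo {s : ℤ} {d : ℕ} {h : ℕ[X]} (hh : h ∈ Up s)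
    (hd : ∀ k, d < k → h.coeff k = 0) : reflect d h ∈ Lo (2 * d - s) := by
  have hh' := mem_Up_bdd hh hd
  clear hh hd
  induction hh' using AddSubmonoid.closure_induction with
  | mem x hx =>
    obtain ⟨i, l, h1, h2, rfl⟩ := hx
    have e : reflect d (X ^ i * geo l : ℕ[X]) = X ^ (d - (i + l)) * geo l := by
      ext k
      rw [coeff_reflect, coeff_gen, coeff_gen]
      by_cases hk : k ≤ d
      · rw [revAt_le hk]
        split_ifs <;> omega
      · rw [revAt_eq_self_of_lt (by omega)]
        split_ifs <;> omega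
    rw [e]
    exact gen_mem_Lo (by omega)
  | zero => simp
  | add x y _ _ hx hy => rw [reflect_add]; exact add_mem hx hy

theorem hopCone_Lo (hcone : HopCone) (V : Type) [Fintype V] [PartialOrder V] [Nonempty V]
    (w : V → ℤ) (hi : Function.Injective w) (t : V → Bool)
    (ht : ∀ x y, x ⋖ y → w y < w x → t x = false ∧ t y = true) :
    W (Dl w) (Finset.univ : Finset V) ∈ Lo (Fintype.card V : ℤ) := by
  classical
  have h0 : 0 < Fintype.card V := Fintype.card_pos
  have h1 := hcone V (fun x => - w x) (fun x y h => hi (neg_injective h)) t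
    (fun x y hxy h => ht x y hxy (by omega))
  have h2 := W_reflect (Dl (fun x => - w x)) (Dl w) (Finset.univ : Finset V) (by
    intro a _ b _ hab
    have hne : w a ≠ w b := fun h => hab (hi h)
    change - w b < - w a ↔ ¬ w b < w a
    constructor
    · intro h; omega
    · intro h; omega)
  rw [← h2, Finset.card_univ]
  have h3 := reflect_mem_Lo (d := Fintype.card V - 1) h1 (fun k hk =>
    coeff_W_eq_zero _ _ (by rw [Finset.card_univ]; omega) Finset.univ_nonempty)
  refine Lo_mono ?_ h3
  omega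

/-- Gauge with increments `0`, `1`, or `-1` from an odd to an even value, on covers. -/
structure GaugeD3 {V : Type} [PartialOrder V] (κ : V → ℕ) (T : ℕ) : Prop where
  cov : ∀ x y, x ⋖ y → κ y ≤ κ x + 1 ∧ (κ x ≤ κ y ∨ (κ x = κ y + 1 ∧ Odd (κ x)))
  bot : ∀ x, IsMin x → κ x ≤ 1
  top : ∀ x, IsMax x → κ x = T ∨ κ x + 1 = T ∨ (κ x = T + 1 ∧ Even T)

theorem main_D3_odd (hcone : HopCone) {V : Type} [Fintype V] [PartialOrder V] [Nonempty V]
    (ω : V → ℤ) (hi : Function.Injective ω)
    (hω : ∀ x y, x < y → ω x < ω y) {κ : V → ℕ} {m : ℕ} (hκ : GaugeD3 κ (2 * m + 1)) :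
    W (Dl ω) (Finset.univ : Finset V) ∈ Lo ((Fintype.card V : ℤ) - 2 * m) := by
  classical
  obtain ⟨C, hC⟩ := exists_spread ω
  have hC0 : 0 < C := by
    obtain ⟨x⟩ := (inferInstance : Nonempty V)
    have := hC x x
    omega
  set ω' : V → ℤ := fun x => ω x - C * ((κ x / 2 : ℕ) : ℤ) with hω'
  -- comparison of values
  have hlt : ∀ x y, κ x / 2 + 1 ≤ κ y / 2 → ω' y < ω' x := by
    intro x y h
    have h1 : C * (((κ x / 2 : ℕ) : ℤ) + 1) ≤ C * ((κ y / 2 : ℕ) : ℤ) :=
      mul_le_mul_of_nonneg_left (by exact_mod_cast h) hC0.le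
    have h2 := hC y x
    simp only [hω']
    rw [mul_add, mul_one] at h1
    omega
  have heq : ∀ x y, κ x / 2 = κ y / 2 → (ω' x < ω' y ↔ ω x < ω y) := by
    intro x y h
    simp only [hω', h]
    constructor
    · intro h1; omega
    · intro h1; omega
  have hi' : Function.Injective ω' := by
    intro x y hxy
    rcases lt_trichotomy (κ x / 2) (κ y / 2) with h | h | h
    · exact absurd hxy (hlt x y h).ne'
    · refine hi ?_
      simp only [hω', h] at hxy
      omega
    · exact absurd hxy (hlt y x h).ne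
  have hcov : ∀ x y, x ⋖ y →
      (κ y / 2 = κ x / 2 ∧ ω' x < ω' y) ∨ (κ y / 2 = κ x / 2 + 1 ∧ ω' y < ω' x) := by
    intro x y hxy
    have h1 := hκ.cov x y hxy
    by_cases h2 : κ y / 2 = κ x / 2
    · exact Or.inl ⟨h2, (heq x y h2.symm).2 (hω x y hxy.lt)⟩
    · right
      have h3 : κ y / 2 = κ x / 2 + 1 := by
        rcases h1 with ⟨h4, h5 | ⟨h5, r, hr⟩⟩ <;> omega
      exact ⟨h3, hlt x y h3.ge⟩
  have h5 := hopCone_Lo hcone V ω' hi' (fun x => decide (κ x % 2 = 0)) (by
    intro x y hxy hw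
    have h1 := hκ.cov x y hxy
    rcases hcov x y hxy with h2 | h2
    · exact absurd hw (not_lt.2 h2.2.le)
    · have h6 : κ x % 2 = 1 ∧ κ y % 2 = 0 := by
        rcases h1 with ⟨h4, h5 | ⟨h5, r, hr⟩⟩ <;> omega
      constructor
      · simp only [decide_eq_false_iff_not]
        omega
      · simp only [decide_eq_true_eq]
        omega)
  have h6 := W_gauge ω ω' hω hi hi' (fun x => κ x / 2) m hcov
    (fun x hx => by have := hκ.bot x hx; omega)
    (fun x hx => by
      have := hκ.top x hx
      rcases this with h | h | ⟨h, r, hr⟩ <;> omega)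
  rw [h6] at h5
  exact Lo_div h5

lemma GaugeD3.withTop {V : Type} [PartialOrder V] [Nonempty V] {κ : V → ℕ} {T : ℕ}
    (hκ : GaugeD3 κ T) (hT : Even T) : GaugeD3 (kt κ T) (T + 1) where
  cov := by
    intro x y hxy
    induction x using WithTop.recTopCoe with
    | top => exact absurd hxy.lt (by simp)
    | coe x =>
      induction y using WithTop.recTopCoe with
      | top =>
        have h1 := hκ.top x (WithTop.coe_covBy_top.1 hxy)
        change T ≤ κ x + 1 ∧ (κ x ≤ T ∨ (κ x = T + 1 ∧ Odd (κ x)))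
        rcases h1 with h | h | ⟨h, -⟩
        · omega
        · omega
        · exact ⟨by omega, Or.inr ⟨h, h ▸ hT.add_one⟩⟩
      | coe y => exact hκ.cov x y (WithTop.coe_covBy_coe.1 hxy)
  bot := by
    intro x hx
    induction x using WithTop.recTopCoe with
    | top =>
      obtain ⟨y⟩ := (inferInstance : Nonempty V)
      exact absurd (WithTop.coe_lt_top y) hx.not_lt
    | coe x => exact hκ.bot x (isMin_of_coe hx)
  top := by
    intro x hx
    induction x using WithTop.recTopCoe with
    | top => right; left; rfl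
    | coe x => exact absurd hx (not_isMax_coe x)

theorem main_D3 (hcone : HopCone) {V : Type} [Fintype V] [PartialOrder V] [Nonempty V]
    (ω : V → ℤ) (hi : Function.Injective ω)
    (hω : ∀ x y, x < y → ω x < ω y) {κ : V → ℕ} {T : ℕ} (hκ : GaugeD3 κ T) :
    W (Dl ω) (Finset.univ : Finset V) ∈ Lo ((Fintype.card V : ℤ) + 1 - T) := by
  classical
  rcases Nat.even_or_odd' T with ⟨m, rfl | rfl⟩
  · obtain ⟨c, hc⟩ := exists_above ω
    have h1 := main_D3_odd hcone (V := WithTop V) (wt ω c) (wt_injective hi hc)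
      (wt_natural hω hc) (hκ.withTop (even_two_mul m))
    rw [W_top ω hc, card_withTop] at h1
    refine Lo_mono ?_ h1
    push_cast; omega
  · refine Lo_mono ?_ (main_D3_odd hcone ω hi hω hκ)
    push_cast; omega

/-- The gauge theorem with both weakened gauges. -/
theorem gauge_theorem33 (hcone : HopCone) (α : Type) [Fintype α] [PartialOrder α]
    (f : α ≃ Fin (Fintype.card α))
    (hf : ∀ x y : α, x < y → f x < f y) (κ μ : α → ℕ) (T T' : ℕ) (hκ : GaugeI3' κ T)
    (hμ : GaugeD3 μ T') (hT : T ≤ T' + 1 ∨ (T = T' + 2 ∧ Even (Fintype.card α + T))) :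
    ∃ m : ℕ, ∀ k : ℕ, (k < m → wnum α f k ≤ wnum α f (k + 1)) ∧
      (m ≤ k → wnum α f (k + 1) ≤ wnum α f k) := by
  rcases isEmpty_or_nonempty α with h | h
  · refine ⟨0, fun k => ⟨fun hk => by omega, fun _ => ?_⟩⟩
    rw [wnum_succ_of_isEmpty α f h]
    exact Nat.zero_le _
  · have hinj : Function.Injective (fun x => ((f x : ℕ) : ℤ)) :=
      fun x y h => f.injective (Fin.ext (Nat.cast_injective h))
    have hnat : ∀ x y : α, x < y → ((f x : ℕ) : ℤ) < ((f y : ℕ) : ℤ) :=
      fun x y h => Nat.cast_lt.2 (Fin.lt_def.1 (hf x y h))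
    have h1 := main_I3' hcone _ α rfl _ hinj hnat κ T hκ
    have h2 := main_D3 hcone _ hinj hnat hμ
    have h3 := unimodal_of_cones h1 h2 (by
      rcases hT with hT | ⟨hT, r, hr⟩
      · left; omega
      · right
        refine ⟨by omega, ⟨(r : ℤ) - 1 - T, ?_⟩⟩
        omega)
    obtain ⟨m, hm⟩ := h3
    refine ⟨m, fun k => ?_⟩
    have e : ∀ k, wnum α f k =
        (W (Dl (fun x => ((f x : ℕ) : ℤ))) (Finset.univ : Finset α)).coeff k :=
      fun k => link f k
    rw [e, e]
    exact hm k

end Pool.HN34
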