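import Pool.Agent.GT34.Cor

set_option autoImplicit false

/-!
# HN34/Main3: the first half of the gauge theorem for the weakened steep gauge

Everything here is conditional on `HopCone`, which is proved in `HN27/Hop.lean`.
-/

open Polynomial

namespace Pool.HN34

open Pool.GT34

/-- The statement proved in `HN27/Hop.lean`. -/
def HopCone : Prop :=
  ∀ (V : Type) [Fintype V] [PartialOrder V] [Nonempty V] (w : V → ℤ), Function.Injective w →
    ∀ t : V → Bool, (∀ x y, x ⋖ y → w x < w y → t x = false ∧ t y = true) →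
      W (Dl w) (Finset.univ : Finset V) ∈ Up ((Fintype.card V : ℤ) - 2)

/-- Gauge with increments `1`, `2`, or `3` from an even to an odd value, on covers. -/
structure GaugeI3 {V : Type} [PartialOrder V] (κ : V → ℕ) (T : ℕ) : Prop where
  cov : ∀ x y, x ⋖ y → κ x + 1 ≤ κ y ∧ (κ y ≤ κ x + 2 ∨ (κ y = κ x + 3 ∧ Even (κ x)))
  bot : ∀ x, IsMin x → κ x ≤ 1
  top : ∀ x, IsMax x → κ x = T ∨ κ x + 1 = T ∨ (κ x + 2 = T ∧ Even T)

/-- The same; the boundary conditions are not asked for isolated points. -/
structure GaugeI3' {V : Type} [PartialOrder V] (κ : V → ℕ) (T : ℕ) : Prop where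
  cov : ∀ x y, x ⋖ y → κ x + 1 ≤ κ y ∧ (κ y ≤ κ x + 2 ∨ (κ y = κ x + 3 ∧ Even (κ x)))
  bot : ∀ x, IsMin x → ¬ IsMax x → κ x ≤ 1
  top : ∀ x, IsMax x → ¬ IsMin x → κ x = T ∨ κ x + 1 = T ∨ (κ x + 2 = T ∧ Even T)

theorem main_I3_odd (hcone : HopCone) {V : Type} [Fintype V] [PartialOrder V] [Nonempty V]
    (ω : V → ℤ) (hi : Function.Injective ω)
    (hω : ∀ x y, x < y → ω x < ω y) {κ : V → ℕ} {m : ℕ} (hκ : GaugeI3 κ (2 * m + 1)) :
    W (Dl ω) (Finset.univ : Finset V) ∈ Up ((Fintype.card V : ℤ) - 2 - 2 * m) := by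
  classical
  obtain ⟨C, hC⟩ := exists_spread ω
  have hC0 : 0 < C := by
    obtain ⟨x⟩ := (inferInstance : Nonempty V)
    have := hC x x
    omega
  set ω' : V → ℤ := fun x => ω x - C * ((κ x / 2 : ℕ) : ℤ) with hω'
  -- comparison of values
  have hlt : ∀ x y, κ x / 2 + 1 ≤ κ y / 2 → ω' y < ω' x := by
    intro x y h
    have h1 : C * (((κ x / 2 : ℕ) : ℤ) + 1) ≤ C * ((κ y / 2 : ℕ) : ℤ) :=
      mul_le_mul_of_nonneg_left (by exact_mod_cast h) hC0.le
    have h2 := hC y x
    simp only [hω']
    rw [mul_add, mul_one] at h1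
    omega
  have heq : ∀ x y, κ x / 2 = κ y / 2 → (ω' x < ω' y ↔ ω x < ω y) := by
    intro x y h
    simp only [hω', h]
    constructor
    · intro h1; omega
    · intro h1; omega
  have hi' : Function.Injective ω' := by
    intro x y hxy
    rcases lt_trichotomy (κ x / 2) (κ y / 2) with h | h | h
    · exact absurd hxy (hlt x y h).ne'
    · refine hi ?_
      simp only [hω', h] at hxy
      omega
    · exact absurd hxy (hlt y x h).ne
  have hcov : ∀ x y, x ⋖ y →
      (κ y / 2 = κ x / 2 ∧ ω' x < ω' y) ∨ (κ y / 2 = κ x / 2 + 1 ∧ ω' y < ω' x) := by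
    intro x y hxy
    have h1 := hκ.cov x y hxy
    by_cases h2 : κ y / 2 = κ x / 2
    · exact Or.inl ⟨h2, (heq x y h2.symm).2 (hω x y hxy.lt)⟩
    · right
      have h3 : κ y / 2 = κ x / 2 + 1 := by
        rcases h1 with ⟨h4, h5 | ⟨h5, r, hr⟩⟩ <;> omega
      exact ⟨h3, hlt x y h3.ge⟩
  have h5 := hcone V ω' hi' (fun x => decide (κ x % 2 = 1)) (by
    intro x y hxy hw
    have h1 := hκ.cov x y hxy
    rcases hcov x y hxy with h2 | h2
    · constructor
      · simp only [decide_eq_false_iff_not]
        omega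
      · simp only [decide_eq_true_eq]
        omega
    · exact absurd hw (not_lt.2 h2.2.le))
  have h6 := W_gauge ω ω' hω hi hi' (fun x => κ x / 2) m hcov
    (fun x hx => by have := hκ.bot x hx; omega)
    (fun x hx => by
      have := hκ.top x hx
      rcases this with h | h | ⟨h, r, hr⟩ <;> omega)
  rw [h6] at h5
  exact Up_div h5

lemma GaugeI3.withTop {V : Type} [PartialOrder V] [Nonempty V] {κ : V → ℕ} {T : ℕ}
    (hκ : GaugeI3 κ T) (hT : Even T) : GaugeI3 (kt κ (T + 1)) (T + 1) where
  cov := by
    intro x y hxy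
    induction x using WithTop.recTopCoe with
    | top => exact absurd hxy.lt (by simp)
    | coe x =>
      induction y using WithTop.recTopCoe with
      | top =>
        have h1 := hκ.top x (WithTop.coe_covBy_top.1 hxy)
        change κ x + 1 ≤ T + 1 ∧ (T + 1 ≤ κ x + 2 ∨ (T + 1 = κ x + 3 ∧ Even (κ x)))
        rcases h1 with h | h | ⟨h, -⟩
        · omega
        · omega
        · refine ⟨by omega, Or.inr ⟨by omega, ?_⟩⟩
          obtain ⟨r, hr⟩ := hT
          exact ⟨r - 1, by omega⟩
      | coe y => exact hκ.cov x y (WithTop.coe_covBy_coe.1 hxy)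
  bot := by
    intro x hx
    induction x using WithTop.recTopCoe with
    | top =>
      obtain ⟨y⟩ := (inferInstance : Nonempty V)
      exact absurd (WithTop.coe_lt_top y) hx.not_lt
    | coe x => exact hκ.bot x (isMin_of_coe hx)
  top := by
    intro x hx
    induction x using WithTop.recTopCoe with
    | top => left; rfl
    | coe x => exact absurd hx (not_isMax_coe x)

theorem main_I3 (hcone : HopCone) {V : Type} [Fintype V] [PartialOrder V] [Nonempty V]
    (ω : V → ℤ) (hi : Function.Injective ω)
    (hω : ∀ x y, x < y → ω x < ω y) {κ : V → ℕ} {T : ℕ} (hκ : GaugeI3 κ T) :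
    W (Dl ω) (Finset.univ : Finset V) ∈ Up ((Fintype.card V : ℤ) - 1 - T) := by
  classical
  rcases Nat.even_or_odd' T with ⟨m, rfl | rfl⟩
  · obtain ⟨c, hc⟩ := exists_above ω
    have h1 := main_I3_odd hcone (V := WithTop V) (wt ω c) (wt_injective hi hc)
      (wt_natural hω hc) (hκ.withTop (even_two_mul m))
    rw [W_top ω hc, card_withTop] at h1
    refine Up_mono ?_ h1
    push_cast; omega
  · refine Up_mono ?_ (main_I3_odd hcone ω hi hω hκ)
    push_cast; omega

theorem main_I3' (hcone : HopCone) : ∀ (n : ℕ) (V : Type) [Fintype V] [PartialOrder V]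
    [Nonempty V], Fintype.card V = n → ∀ ω : V → ℤ, Function.Injective ω →
    (∀ x y, x < y → ω x < ω y) → ∀ (κ : V → ℕ) (T : ℕ), GaugeI3' κ T →
    W (Dl ω) (Finset.univ : Finset V) ∈ Up ((n : ℤ) - 1 - T) := by
  classical
  intro n
  induction n with
  | zero =>
    intro V _ _ _ hn
    have : 0 < Fintype.card V := Fintype.card_pos
    omega
  | succ n ih =>
    intro V _ _ _ hn ω hi hω κ T hκ
    by_cases hiso : ∃ x : V, ∀ y, ¬ y < x ∧ ¬ x < y
    · obtain ⟨x, hx⟩ := hiso
      have hc : Fintype.card {y : V // y ≠ x} = n := by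
        rw [Fintype.card_subtype, Finset.filter_ne' Finset.univ x, Finset.card_erase_of_mem
          (Finset.mem_univ x), Finset.card_univ, hn]
        omega
      rcases Nat.eq_zero_or_pos n with h0 | hpos
      · -- one point
        subst h0
        obtain ⟨a, ha⟩ := Fintype.card_eq_one_iff.1 hn
        have e1 : mins (Finset.univ : Finset V) = {a} := by
          ext z
          rw [mem_mins, Finset.mem_singleton]
          constructor
          · exact fun _ => ha z
          · rintro rfl
            exact ⟨Finset.mem_univ _, fun y _ => by rw [ha y]; exact lt_irrefl _⟩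
        have e2 : del (Finset.univ : Finset V) a = ∅ := by
          ext z
          rw [mem_del]
          simp [ha z]
        rw [W, e1, Finset.sum_singleton, e2, G_empty]
        refine Up_mono ?_ one_mem_Up
        push_cast
        omega
      · have hne : Nonempty {y : V // y ≠ x} := by
          rw [← Fintype.card_pos_iff, hc]
          exact hpos
        have hmin : ∀ y : {y : V // y ≠ x}, IsMin y ↔ IsMin (y : V) := by
          intro y
          constructor
          · intro h w hw
            by_cases hwx : w = x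
            · rcases hw.eq_or_lt with h2 | h2
              · exact h2.ge
              · exact absurd (hwx ▸ h2) (hx _).2
            · exact h (b := ⟨w, hwx⟩) hw
          · intro h w hw
            exact h hw
        have hmax : ∀ y : {y : V // y ≠ x}, IsMax y ↔ IsMax (y : V) := by
          intro y
          constructor
          · intro h w hw
            by_cases hwx : w = x
            · rcases hw.eq_or_lt with h2 | h2
              · exact h2.symm.le
              · exact absurd (hwx ▸ h2) (hx _).1
            · exact h (b := ⟨w, hwx⟩) hw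
          · intro h w hw
            exact h hw
        have hcov : ∀ y z : {y : V // y ≠ x}, y ⋖ z → (y : V) ⋖ z := by
          intro y z hyz
          refine ⟨hyz.lt, fun w h1 h2 => ?_⟩
          have hwx : w ≠ x := fun h => (hx _).1 (h ▸ h1)
          exact hyz.2 (c := ⟨w, hwx⟩) h1 h2
        have hκ' : GaugeI3' (fun y : {y : V // y ≠ x} => κ y) T := by
          refine ⟨fun y z hyz => hκ.cov y z (hcov y z hyz), fun y h1 h2 => ?_, fun y h1 h2 => ?_⟩
          · exact hκ.bot y ((hmin y).1 h1) (fun h => h2 ((hmax y).2 h))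
          · exact hκ.top y ((hmax y).1 h1) (fun h => h2 ((hmin y).2 h))
        have h2 := ih {y : V // y ≠ x} hc (fun y => ω y) (hi.comp Subtype.val_injective)
          (fun y z hyz => hω y z hyz) (fun y => κ y) T hκ'
        rw [← hc] at h2
        have h3 := W_isolated_Up x hx ω hi h2
        rwa [hn] at h3
    · push Not at hiso
      have hminmax : ∀ x : V, IsMin x → ¬ IsMax x := by
        intro x hx hx'
        obtain ⟨y, hy⟩ := hiso x
        by_cases h2 : y < x
        · exact hx.not_lt h2
        · exact hx'.not_lt (hy h2)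
      have hκ' : GaugeI3 κ T := ⟨hκ.cov, fun x hx => hκ.bot x hx (hminmax x hx),
        fun x hx => hκ.top x hx (fun h => hminmax x h hx)⟩
      have h3 := main_I3 hcone ω hi hω hκ'
      rwa [hn] at h3

theorem gauge_theorem3 (hcone : HopCone) (α : Type) [Fintype α] [PartialOrder α]
    (f : α ≃ Fin (Fintype.card α))
    (hf : ∀ x y : α, x < y → f x < f y) (κ μ : α → ℕ) (T T' : ℕ) (hκ : GaugeI3' κ T)
    (hμ : GaugeD μ T') (hT : T ≤ T' + 1 ∨ (T = T' + 2 ∧ Even (Fintype.card α + T))) :
    ∃ m : ℕ, ∀ k : ℕ, (k < m → wnum α f k ≤ wnum α f (k + 1)) ∧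
      (m ≤ k → wnum α f (k + 1) ≤ wnum α f k) := by
  rcases isEmpty_or_nonempty α with h | h
  · refine ⟨0, fun k => ⟨fun hk => by omega, fun _ => ?_⟩⟩
    rw [wnum_succ_of_isEmpty α f h]
    exact Nat.zero_le _
  · have h1 := main_I3' hcone _ α rfl (fun x => ((f x : ℕ) : ℤ))
      (fun x y h => f.injective (Fin.ext (Nat.cast_injective h)))
      (fun x y h => Nat.cast_lt.2 (Fin.lt_def.1 (hf x y h))) κ T hκ
    have h2 := second_half α f hf μ T' hμ
    have h3 := unimodal_of_cones h1 h2 (by
      rcases hT with hT | ⟨hT, r, hr⟩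
      · left; omega
      · right
        refine ⟨by omega, ⟨(r : ℤ) - 1 - T, ?_⟩⟩
        omega)
    obtain ⟨m, hm⟩ := h3
    refine ⟨m, fun k => ?_⟩
    have e : ∀ k, wnum α f k =
        (W (Dl (fun x => ((f x : ℕ) : ℤ))) (Finset.univ : Finset α)).coeff k :=
      fun k => link f k
    rw [e, e]
    exact hm k

open Classical in
/-- The gauge of a poset without a five-element chain. -/
theorem gaugeI3_noFive {V : Type} [PartialOrder V]
    (h5 : ∀ a b c d e : V, a < b → b < c → c < d → ¬ d < e) :
    GaugeI3' (fun x : V => if IsMax x then 3 else if IsMin x then 0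
      else if ∃ a b, a < b ∧ b < x then 2 else 1) 3 := by
  refine ⟨fun x y hxy => ?_, fun x h1 h2 => ?_, fun x h1 h2 => ?_⟩
  · have hx : ¬ IsMax x := fun h => h.not_lt hxy.lt
    have hy : ¬ IsMin y := fun h => h.not_lt hxy.lt
    simp only [if_neg hx, if_neg hy]
    by_cases h1 : IsMin x
    · simp only [if_pos h1]
      by_cases h2 : IsMax y
      · simp [h2]
      · simp only [if_neg h2]
        split_ifs <;> simp
    · simp only [if_neg h1]
      rw [isMin_iff_forall_not_lt] at h1
      push Not at h1
      obtain ⟨a, ha⟩ := h1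
      have hy2 : ∃ a b, a < b ∧ b < y := ⟨a, x, ha, hxy.lt⟩
      by_cases h2 : IsMax y
      · simp only [if_pos h2]
        split_ifs <;> simp
      · simp only [if_neg h2, if_pos hy2]
        rw [isMax_iff_forall_not_lt] at h2
        push Not at h2
        obtain ⟨e, he⟩ := h2
        have hx2 : ¬ ∃ a b, a < b ∧ b < x := by
          rintro ⟨a, b, hab, hb⟩
          exact h5 a b x y e hab hb hxy.lt he
        simp [hx2]
  · simp [h1, h2]
  · simp [h1]

/-- Every finite poset without a five-element chain has unimodal descent numbers. -/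
theorem unimodal_of_noFive (hcone : HopCone) (α : Type) [Fintype α] [PartialOrder α]
    (f : α ≃ Fin (Fintype.card α)) (hf : ∀ x y : α, x < y → f x < f y)
    (h5 : ∀ a b c d e : α, a < b → b < c → c < d → ¬ d < e) :
    ∃ m : ℕ, ∀ k : ℕ, (k < m → wnum α f k ≤ wnum α f (k + 1)) ∧
      (m ≤ k → wnum α f (k + 1) ≤ wnum α f k) :=
  gauge_theorem3 hcone α f hf _ _ 3 2 (gaugeI3_noFive h5) gaugeD_const (Or.inl (by omega))

end Pool.HN34
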