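import Pool.Agent.GT34.Rec
import Pool.Agent.NC86.Step
import Pool.Agent.NC86.Tptwo

set_option autoImplicit false

/-!
# HN34/Ord: ordinal sums with a log-concave summand keep unimodality
-/

open Polynomial Finset

namespace Pool.HN34

open Pool.GT34 Pool.NC86

/-- Unimodal times log-concave is unimodal. -/
theorem uni_conv {u w : ℕ → ℕ} {n : ℕ} (hu : Pf (fun k => (u k : ℝ)))
    (hw : ∀ i, n < i → w i = 0)
    (hwu : ∃ μ : ℕ, ∀ k : ℕ, (k < μ → w k ≤ w (k + 1)) ∧ (μ ≤ k → w (k + 1) ≤ w k))
    {h : ℕ → ℕ} (hh : ∀ k, h k = ∑ x ∈ antidiagonal k, u x.1 * w x.2)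
    {N : ℕ} (hz : ∀ k, N < k → h k = 0) :
    ∃ m : ℕ, ∀ k : ℕ, (k < m → h k ≤ h (k + 1)) ∧ (m ≤ k → h (k + 1) ≤ h k) := by
  classical
  obtain ⟨μ, hμ⟩ := hwu
  set U : ℕ → ℝ := fun k => (u k : ℝ) with hU
  -- the sum over the window
  have hh' : ∀ k, (h k : ℝ) = ∑ i ∈ range (n + 1), (w i : ℝ) * rv U k i := by
    intro k
    rw [hh, Finset.Nat.antidiagonal_eq_map', Finset.sum_map]
    push_cast
    have h1 : ∀ i ∈ range (n + 1 + (k + 1)), i ∉ range (k + 1) → (w i : ℝ) * rv U k i = 0 := by
      intro i _ hi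
      rw [mem_range, not_lt] at hi
      unfold rv
      rw [if_neg (by omega), mul_zero]
    have h2 : ∀ i ∈ range (n + 1 + (k + 1)), i ∉ range (n + 1) → (w i : ℝ) * rv U k i = 0 := by
      intro i _ hi
      rw [mem_range, not_lt] at hi
      rw [hw i (by omega), Nat.cast_zero, zero_mul]
    rw [Finset.sum_subset (s₁ := range (n + 1)) (s₂ := range (n + 1 + (k + 1)))
      (fun i hi => mem_range.2 (by have := mem_range.1 hi; omega)) h2,
      ← Finset.sum_subset (s₁ := range (k + 1)) (s₂ := range (n + 1 + (k + 1)))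
      (fun i hi => mem_range.2 (by have := mem_range.1 hi; omega)) h1]
    refine Finset.sum_congr rfl fun i hi => ?_
    rw [mem_range] at hi
    simp only [Function.Embedding.coeFn_mk]
    unfold rv
    rw [if_pos (by omega)]
    ring
  set D : ℕ → ℝ := fun i => if i = 0 then (w 0 : ℝ) else (w i : ℝ) - (w (i - 1) : ℝ) with hD
  set T : ℕ → ℝ := fun k => ∑ i ∈ range (n + 1 + 1), D i * rv U k i with hT
  refine uni_of_signs (T := T) (N := N) (fun k => ?_) (fun k l hkl hneg => ?_) hz
  · simp only [hT, hD]
    rw [by_parts (fun i => (w i : ℝ)) (fun i => rv U (k + 1) i) n]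
    rw [hw (n + 1) (by omega), Nat.cast_zero, zero_mul, zero_add, hh', hh',
      ← Finset.sum_sub_distrib]
    refine Finset.sum_congr rfl fun i _ => ?_
    have e : rv U (k + 1) (i + 1) = rv U k i := by
      unfold rv
      by_cases hik : i ≤ k
      · rw [if_pos (by omega), if_pos hik, show k + 1 - (i + 1) = k - i by omega]
      · rw [if_neg (by omega), if_neg hik]
    rw [e]
    ring
  · refine sign_change (μ := μ) (F := rv U) (fun r i => rv_nonneg hu _ _)
      (fun i i' hii _ => ?_) (fun i hi => ?_) (fun i hi => ?_) hneg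
    · by_cases h : i' ≤ k
      · unfold rv
        rw [if_pos h, if_pos (by omega), if_pos (by omega), if_pos (by omega)]
        have := hu.2 (k - i') (k - i) (l - k) (by omega)
        rw [show k - i + (l - k) = l - i by omega, show k - i' + (l - k) = l - i' by omega] at this
        rw [mul_comm (U (k - i))]
        exact this
      · have : rv U k i' = 0 := by unfold rv; rw [if_neg h]
        rw [this, zero_mul]
        exact mul_nonneg (rv_nonneg hu _ _) (rv_nonneg hu _ _)
    · simp only [hD]
      split_ifs with h0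
      · exact Nat.cast_nonneg _
      · have := (hμ (i - 1)).1 (by omega)
        rw [show i - 1 + 1 = i by omega] at this
        have h' : (w (i - 1) : ℝ) ≤ (w i : ℝ) := by exact_mod_cast this
        linarith
    · simp only [hD]
      rw [if_neg (by omega)]
      have := (hμ (i - 1)).2 (by omega)
      rw [show i - 1 + 1 = i by omega] at this
      have h' : (w i : ℝ) ≤ (w (i - 1) : ℝ) := by exact_mod_cast this
      linarith

/-- The polynomial form. -/
theorem uni_mul {g h : ℕ[X]} (hg : Pf (fun k => (g.coeff k : ℝ))) (hh : Uni h) :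
    Uni (g * h) :=
  uni_conv (u := g.coeff) (w := h.coeff) (n := h.natDegree) hg
    (fun _ hi => coeff_eq_zero_of_natDegree_lt hi) hh (fun k => coeff_mul g h k)
    (N := (g * h).natDegree) (fun _ hk => coeff_eq_zero_of_natDegree_lt hk)

section Prod

variable {V : Type} [PartialOrder V]

open Classical in
lemma G_ord (D : V → V → Prop) {B : Finset V} (hB : B.Nonempty) : ∀ (n : ℕ) (x : V)
    (S : Finset V), S.card = n → (∀ z ∈ S, ∀ y ∈ B, z < y) → (∀ z ∈ S, ∀ y ∈ B, ¬ D z y) →
    (∀ y ∈ B, ¬ D x y) → G D x (S ∪ B) = G D x S * W D B := by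
  intro n
  induction n with
  | zero =>
    intro x S hS _ _ hx
    rw [Finset.card_eq_zero] at hS
    subst hS
    rw [Finset.empty_union, G_empty, one_mul, G_rec D x hB, W]
    refine Finset.sum_congr rfl fun y hy => ?_
    rw [st, if_neg (hx y (mem_mins.1 hy).1), one_mul]
  | succ n ih =>
    intro x S hS hlt hD hx
    have hSne : S.Nonempty := Finset.card_pos.1 (by omega)
    have hm : mins (S ∪ B) = mins S := by
      ext z
      rw [mem_mins, mem_mins]
      constructor
      · rintro ⟨h1, h2⟩
        have hz : z ∈ S := by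
          rcases Finset.mem_union.1 h1 with h | h
          · exact h
          · obtain ⟨s, hs⟩ := hSne
            exact absurd (hlt s hs z h) (h2 s (Finset.mem_union_left _ hs))
        exact ⟨hz, fun y hy => h2 y (Finset.mem_union_left _ hy)⟩
      · rintro ⟨h1, h2⟩
        refine ⟨Finset.mem_union_left _ h1, fun y hy => ?_⟩
        rcases Finset.mem_union.1 hy with h | h
        · exact h2 y h
        · exact (hlt z h1 y h).not_gt
    rw [G_rec D x (hSne.mono Finset.subset_union_left), G_rec D x hSne, hm, Finset.sum_mul]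
    refine Finset.sum_congr rfl fun y hy => ?_
    have hyS := (mem_mins.1 hy).1
    have hd : del (S ∪ B) y = del S y ∪ B := by
      ext z
      rw [mem_del, Finset.mem_union, Finset.mem_union, mem_del]
      constructor
      · rintro ⟨h1, h2 | h2⟩
        · exact Or.inl ⟨h1, h2⟩
        · exact Or.inr h2
      · rintro (⟨h1, h2⟩ | h2)
        · exact ⟨h1, Or.inl h2⟩
        · exact ⟨fun h => (hlt y hyS z h2).ne' h, Or.inr h2⟩
    rw [hd, ih y (del S y) (by have := card_del hyS; omega)
      (fun z hz => hlt z (mem_del.1 hz).2) (fun z hz => hD z (mem_del.1 hz).2) (hD y hyS),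
      mul_assoc]

open Classical in
/-- The product formula for ordinal sums. -/
theorem W_ord (D : V → V → Prop) {A B : Finset V} (hA : A.Nonempty) (hB : B.Nonempty)
    (hlt : ∀ z ∈ A, ∀ y ∈ B, z < y) (hD : ∀ z ∈ A, ∀ y ∈ B, ¬ D z y) :
    W D (A ∪ B) = W D A * W D B := by
  have hm : mins (A ∪ B) = mins A := by
    ext z
    rw [mem_mins, mem_mins]
    constructor
    · rintro ⟨h1, h2⟩
      have hz : z ∈ A := by
        rcases Finset.mem_union.1 h1 with h | h
        · exact h
        · obtain ⟨s, hs⟩ := hA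
          exact absurd (hlt s hs z h) (h2 s (Finset.mem_union_left _ hs))
      exact ⟨hz, fun y hy => h2 y (Finset.mem_union_left _ hy)⟩
    · rintro ⟨h1, h2⟩
      refine ⟨Finset.mem_union_left _ h1, fun y hy => ?_⟩
      rcases Finset.mem_union.1 hy with h | h
      · exact h2 y h
      · exact (hlt z h1 y h).not_gt
  rw [W, W, hm, Finset.sum_mul]
  refine Finset.sum_congr rfl fun y hy => ?_
  have hyA := (mem_mins.1 hy).1
  have hd : del (A ∪ B) y = del A y ∪ B := by
    ext z
    rw [mem_del, Finset.mem_union, Finset.mem_union, mem_del]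
    constructor
    · rintro ⟨h1, h2 | h2⟩
      · exact Or.inl ⟨h1, h2⟩
      · exact Or.inr h2
    · rintro (⟨h1, h2⟩ | h2)
      · exact ⟨h1, Or.inl h2⟩
      · exact ⟨fun h => (hlt y hyA z h2).ne' h, Or.inr h2⟩
  rw [hd, G_ord D hB _ y (del A y) rfl (fun z hz => hlt z (mem_del.1 hz).2)
    (fun z hz => hD z (mem_del.1 hz).2) (hD y hyA)]

/-- Restriction to a subtype. -/
lemma W_restrict [Fintype V] (ω : V → ℤ) (p : V → Prop) [DecidablePred p]
    [Fintype {x // p x}] :
    W (Dl (fun x : {x // p x} => ω x)) Finset.univ = W (Dl ω) (Finset.univ.filter p) := by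
  have h := W_map (OrderEmbedding.subtype p) (Dl ω) (Finset.univ : Finset {x // p x})
  have e : (Finset.univ : Finset {x // p x}).map (OrderEmbedding.subtype p).toEmbedding =
      Finset.univ.filter p := by
    ext z
    simp
  rw [e] at h
  exact h.symm

theorem uni_ord [Fintype V] (p : V → Prop) [Fintype {x // p x}] [Fintype {x // ¬ p x}]
    (hp : (∀ x y, p x → ¬ p y → x < y) ∨ (∀ x y, p x → ¬ p y → y < x)) (ω : V → ℤ)
    (_hi : Function.Injective ω) (hω : ∀ x y, x < y → ω x < ω y)
    (hL : Pf (fun k => ((W (Dl (fun x : {x // p x} => ω x)) Finset.univ).coeff k : ℝ)))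
    (hU : Uni (W (Dl (fun x : {x // ¬ p x} => ω x)) Finset.univ)) :
    Uni (W (Dl ω) (Finset.univ : Finset V)) := by
  classical
  rw [W_restrict ω p] at hL
  rw [W_restrict ω (fun x => ¬ p x)] at hU
  set A : Finset V := Finset.univ.filter p with hA
  set B : Finset V := Finset.univ.filter (fun x => ¬ p x) with hB
  have hAB : A ∪ B = Finset.univ := Finset.filter_union_filter_not_eq p _
  have hAm : ∀ z, z ∈ A ↔ p z := fun z => by simp [hA]
  have hBm : ∀ z, z ∈ B ↔ ¬ p z := fun z => by simp [hB]
  rcases A.eq_empty_or_nonempty with h0 | hA0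
  · rw [h0, Finset.empty_union] at hAB
    rw [← hAB]
    exact hU
  · rcases B.eq_empty_or_nonempty with h1 | hB0
    · rw [h1, Finset.union_empty] at hAB
      rw [← hAB]
      have h2 : Uni (1 : ℕ[X]) := by
        refine ⟨0, fun k => ⟨fun h => by omega, fun _ => ?_⟩⟩
        rw [coeff_one, if_neg (by omega)]
        exact Nat.zero_le _
      have h3 := uni_mul hL h2
      rwa [mul_one] at h3
    · rcases hp with hp | hp
      · rw [← hAB, W_ord (Dl ω) hA0 hB0
          (fun z hz y hy => hp z y ((hAm z).1 hz) ((hBm y).1 hy))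
          (fun z hz y hy => not_lt.2 (hω z y (hp z y ((hAm z).1 hz) ((hBm y).1 hy))).le)]
        exact uni_mul hL hU
      · rw [← hAB, Finset.union_comm, W_ord (Dl ω) hB0 hA0
          (fun z hz y hy => hp y z ((hAm y).1 hy) ((hBm z).1 hz))
          (fun z hz y hy => not_lt.2 (hω z y (hp y z ((hAm y).1 hy) ((hBm z).1 hz))).le), mul_comm]
        exact uni_mul hL hU

end Prod

end Pool.HN34
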